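import Pool.Agent.Lib.MP_f6f14e_gt.Limit
import Pool.Agent.Lib.MP_f6f14e_gt.Conv

/-!
# Bounded turning metric trees admit Lipschitz light maps to the line
-/

open Set

namespace Pool.Agent.Results.MP_f6f14e_gt.LipschitzLight

/-- `A` is a Jordan arc with end points `x` and `y`: it is homeomorphic to `[0,1]` by a
homeomorphism sending `0` to `x` and `1` to `y`. -/
def IsArc {T : Type*} [TopologicalSpace T] (A : Set T) (x y : T) : Prop :=
  ∃ e : unitInterval ≃ₜ A, (e 0 : T) = x ∧ (e 1 : T) = y

/-- Metric trees: compact, connected, locally connected metric spaces with more than one point in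
which any two distinct points are the end points of a unique Jordan arc. -/
structure IsMetricTree (T : Type*) [MetricSpace T] : Prop where
  compact : CompactSpace T
  connected : ConnectedSpace T
  locallyConnected : LocallyConnectedSpace T
  nontrivial : Nontrivial T
  uniqueArc : ∀ x y : T, x ≠ y → ∃! A : Set T, IsArc A x y

/-- Bounded turning: for some `B ≥ 1` any two points `u, v` lie in a compact connected set of
diameter at most `B * dist u v`. -/
def BoundedTurning (T : Type*) [MetricSpace T] : Prop :=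
  ∃ B : ℝ, 1 ≤ B ∧ ∀ u v : T, ∃ E : Set T, IsCompact E ∧ IsConnected E ∧ u ∈ E ∧ v ∈ E ∧
    Metric.diam E ≤ B * dist u v

/-- `x` and `y` are points of `A` joined by a `δ`-chain inside `A`. -/
def SameComponent {X : Type*} [MetricSpace X] (A : Set X) (δ : ℝ) (x y : X) : Prop :=
  x ∈ A ∧ Relation.ReflTransGen (fun a b => a ∈ A ∧ b ∈ A ∧ dist a b ≤ δ) x y

/-- Lipschitz light maps: for some `C ≥ 1` the map is `C`-Lipschitz and for every bounded set `W`
of positive diameter any two points of the same `diam W`-component of the preimage of `W` are at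
distance at most `C * diam W` (that is, every such component has diameter at most
`C * diam W`). -/
def IsLipschitzLight {X Y : Type*} [MetricSpace X] [MetricSpace Y] (f : X → Y) : Prop :=
  ∃ C : ℝ, 1 ≤ C ∧ (∀ x y, dist (f x) (f y) ≤ C * dist x y) ∧
    ∀ W : Set Y, Bornology.IsBounded W → 0 < Metric.diam W →
      ∀ x y, SameComponent (f ⁻¹' W) (Metric.diam W) x y → dist x y ≤ C * Metric.diam W

/-- Every bounded turning metric tree admits a Lipschitz light map into the real line. -/
theorem result : ∀ (T : Type*) [MetricSpace T], IsMetricTree T → BoundedTurning T →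
    ∃ f : T → ℝ, IsLipschitzLight f := by
  intro T _ hT hBT
  obtain ⟨B, hB1, hB⟩ := hBT
  have hcomp : CompactSpace T := hT.compact
  have hnt : Nontrivial T := hT.nontrivial
  have hU : ∀ x y : T, x ≠ y → ∃! A : Set T, Lib.MP_f6f14e_gt.IsArcR A x y := by
    intro x y hxy
    obtain ⟨A, hA, hA2⟩ := hT.uniqueArc x y hxy
    refine ⟨A, ?_, ?_⟩
    · obtain ⟨e, rfl, rfl⟩ := hA
      exact Lib.MP_f6f14e_gt.isArcR_of_homeo e
    · intro A' hA'
      exact hA2 A' (Lib.MP_f6f14e_gt.exists_homeo_of_isArcR hA')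
  have hbt : ∀ u v : T, ∃ E : Set T, IsPreconnected E ∧ u ∈ E ∧ v ∈ E ∧
      ∀ p ∈ E, ∀ q ∈ E, dist p q ≤ B * dist u v := by
    intro u v
    obtain ⟨E, hE1, hE2, hu, hv, hd⟩ := hB u v
    exact ⟨E, hE2.isPreconnected, hu, hv, fun p hp q hq =>
      (Metric.dist_le_diam_of_mem hE1.isBounded hp hq).trans hd⟩
  have hC := Lib.MP_f6f14e_gt.rho_le_of_bt (by linarith) hbt hU
  set S := Lib.MP_f6f14e_gt.segSysU hU with hS
  obtain ⟨r⟩ : Nonempty T := inferInstance
  obtain ⟨f, hf1, hf2⟩ := Lib.MP_f6f14e_gt.exists_limit_map S r hC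
  refine ⟨f, 32 * (1 + 80 * (4 * B)), by nlinarith, ?_, ?_⟩
  · intro x y
    rw [Real.dist_eq]
    have h1 := hf1 x y
    have h2 := hC x y
    have h3 : 0 ≤ dist x y := dist_nonneg
    nlinarith
  · intro W hW hpos x y hxy
    refine Lib.MP_f6f14e_gt.light_estimate S (by linarith : 0 < 4 * B) hC hf1 hf2 hpos ?_ hxy.1
      hxy.2
    intro a ha b hb
    rw [← Real.dist_eq]
    exact Metric.dist_le_diam_of_mem hW ha hb

end Pool.Agent.Results.MP_f6f14e_gt.LipschitzLight
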